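import Pool.Agent.NbrSum.Core

/-!
# Closed neighbourhood sums of `k C_t` for even `k` and `3 ∣ t`
-/

namespace Pool.Agent.Results.MP_4e56b2_co.EvenCopies

open Pool.Agent.NbrSum

/-- Let `k ≥ 2` be even and `n = kt`. For `k C_3` the three parameters are `3(n+1)/2 + 1/2`,
`3(n+1)/2 - 1/2` and `1`; for `k C_6` they are `3(n+1)/2 + 3/2`, `3(n+1)/2 - 3/2` and `3`; for
`k C_t` with `t = 3L ≥ 9` both deviations from `3(n+1)/2` are `3/2` or `5/2` and the spread is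
`3`, `4` or `5`. -/
theorem result (k : ℕ) (hk : Even k) (hk1 : 1 ≤ k) :
    (2 * NS (cycles (fun _ : Fin k => 3)) = 3 * (k * 3 + 1) + 1 ∧
      2 * NSminus (cycles (fun _ : Fin k => 3)) + 1 = 3 * (k * 3 + 1) ∧
      NSsp (cycles (fun _ : Fin k => 3)) = 1) ∧
    (2 * NS (cycles (fun _ : Fin k => 6)) = 3 * (k * 6 + 1) + 3 ∧
      2 * NSminus (cycles (fun _ : Fin k => 6)) + 3 = 3 * (k * 6 + 1) ∧
      NSsp (cycles (fun _ : Fin k => 6)) = 3) ∧
    ∀ L : ℕ, 3 ≤ L →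
      (3 * (k * (3 * L) + 1) + 3 ≤ 2 * NS (cycles (fun _ : Fin k => 3 * L)) ∧
        2 * NS (cycles (fun _ : Fin k => 3 * L)) ≤ 3 * (k * (3 * L) + 1) + 5) ∧
      (2 * NSminus (cycles (fun _ : Fin k => 3 * L)) + 3 ≤ 3 * (k * (3 * L) + 1) ∧
        3 * (k * (3 * L) + 1) ≤ 2 * NSminus (cycles (fun _ : Fin k => 3 * L)) + 5) ∧
      (3 ≤ NSsp (cycles (fun _ : Fin k => 3 * L)) ∧
        NSsp (cycles (fun _ : Fin k => 3 * L)) ≤ 5) := by
  refine ⟨?_, ?_, ?_⟩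
  · have h : (3 * (k * 3 + 1) + 1 ≤ 2 * NS (cycles (fun _ : Fin k => 3)) ∧
        2 * NS (cycles (fun _ : Fin k => 3)) ≤ 3 * (k * 3 + 1) + 1) ∧
        (2 * NSminus (cycles (fun _ : Fin k => 3)) + 1 ≤ 3 * (k * 3 + 1) ∧
          3 * (k * 3 + 1) ≤ 2 * NSminus (cycles (fun _ : Fin k => 3)) + 1) ∧
        (1 ≤ NSsp (cycles (fun _ : Fin k => 3)) ∧
          NSsp (cycles (fun _ : Fin k => 3)) ≤ 1) :=
      even_case k 1 hk hk1 (by norm_num)
    omega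
  · have h : (3 * (k * 6 + 1) + 3 ≤ 2 * NS (cycles (fun _ : Fin k => 6)) ∧
        2 * NS (cycles (fun _ : Fin k => 6)) ≤ 3 * (k * 6 + 1) + 3) ∧
        (2 * NSminus (cycles (fun _ : Fin k => 6)) + 3 ≤ 3 * (k * 6 + 1) ∧
          3 * (k * 6 + 1) ≤ 2 * NSminus (cycles (fun _ : Fin k => 6)) + 3) ∧
        (3 ≤ NSsp (cycles (fun _ : Fin k => 6)) ∧
          NSsp (cycles (fun _ : Fin k => 6)) ≤ 3) :=
      even_case k 2 hk hk1 (by norm_num)
    omega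
  · intro L hL
    have h := even_case k L hk hk1 (by omega)
    have g1 : gapE L = 5 := by
      unfold gapE; rw [if_neg (by omega), if_neg (by omega)]
    have g2 : gapE' L = 3 := by
      unfold gapE'; rw [if_neg (by omega)]
    rw [g1, g2] at h
    exact h

end Pool.Agent.Results.MP_4e56b2_co.EvenCopies
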