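import Pool.Agent.NbrSum.Core

/-!
# Closed neighbourhood sums of 2-regular graphs all of whose cycle lengths are divisible by `3`
-/

namespace Pool.Agent.Results.MP_4e56b2_co.MixedCycles

open Pool.Agent.NbrSum

/-- Let `G` be the disjoint union of `k ≥ 1` cycles of lengths `3 L j`, with `n` vertices, and let
`big L` be the number of cycles of length at least `21`. If `n` is odd and `k < 2 (big L)`, every
labeling has `m(f) ≤ 3(n+1)/2 - 2` and `M(f) ≥ 3(n+1)/2 + 2`; if `n` is even and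
`2k < n/3 + 4 (big L)`, every labeling has `m(f) ≤ 3(n+1)/2 - 3/2` and `M(f) ≥ 3(n+1)/2 + 3/2`. -/
theorem result (k : ℕ) (L : Fin k → ℕ) (hk : 1 ≤ k) (hL : ∀ j, 1 ≤ L j)
    (f : (Σ j : Fin k, Fin (3 * L j)) → ℕ) (hf : IsLabeling f) :
    (Odd (∑ j, 3 * L j) → k < 2 * big L →
      2 * minSum (cycles fun j => 3 * L j) f + 4 ≤ 3 * (∑ j, 3 * L j + 1) ∧
      3 * (∑ j, 3 * L j + 1) + 4 ≤ 2 * maxSum (cycles fun j => 3 * L j) f) ∧
    (Even (∑ j, 3 * L j) → 2 * k < ∑ j, L j + 4 * big L →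
      2 * minSum (cycles fun j => 3 * L j) f + 3 ≤ 3 * (∑ j, 3 * L j + 1) ∧
      3 * (∑ j, 3 * L j + 1) + 3 ≤ 2 * maxSum (cycles fun j => 3 * L j) f) := by
  have hsum : ∑ j, 3 * L j = 3 * ∑ j, L j := by rw [Finset.mul_sum]
  rw [hsum]
  have hfin : ∀ g, Adm L g →
      2 * minSum (cycles fun j => 3 * L j) f + g ≤ 3 * (3 * ∑ j, L j + 1) ∧
      3 * (3 * ∑ j, L j + 1) + g ≤ 2 * maxSum (cycles fun j => 3 * L j) f := by
    intro g hg
    obtain ⟨⟨v, hv⟩, ⟨w, hw⟩⟩ := both hk L hL g hg f hf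
    have h1 := minSum_le (cycles fun j => 3 * L j) f v
    have h2 := le_maxSum (cycles fun j => 3 * L j) f w
    omega
  refine ⟨fun hodd hb => hfin 4 ?_, fun heven hb => hfin 3 ?_⟩
  · unfold Adm
    rw [Nat.odd_iff] at hodd
    omega
  · unfold Adm
    rw [Nat.even_iff] at heven
    omega


end Pool.Agent.Results.MP_4e56b2_co.MixedCycles
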