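import Pool.Agent.NbrSum.NonThree

/-!
# Closed neighbourhood sums of 2-regular graphs without cycle lengths divisible by `3`
-/

namespace Pool.Agent.Results.MP_4e56b2_co.NonMultiples

open Pool.Agent.NbrSum

/-- (i) Let `G` be a 2-regular graph with `n ≥ 1` vertices all of whose cycles have length at most
`T` and not divisible by `3`. Then `T n (2 NS[G] - 3(n+1)) ≥ 3 ⌊n²/4⌋`,
`T n (3(n+1) - 2 NS⁻[G]) ≥ 3 ⌊n²/4⌋` and `(4T+1) NS^{sp}[G] ≥ 9(n-1)`.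
(ii) For `k ≥ 1` and `t ≥ 4` not divisible by `3`, `G = k C_t` with `n = kt` has
`2 NS[G] ≤ 3(n+1) + 5k - 1`, `2 NS⁻[G] ≥ 3(n+1) - (5k - 1)` and `NS^{sp}[G] ≤ 5k - 1`. -/
theorem result :
    (∀ (k : ℕ) (len : Fin k → ℕ) (T n : ℕ), (∀ j, 3 ≤ len j ∧ len j ≤ T) →
      (∀ j, ¬ 3 ∣ len j) → n = ∑ j, len j → 1 ≤ n →
      3 * (n ^ 2 / 4) + T * (n * (3 * (n + 1))) ≤ T * (n * (2 * NS (cycles len))) ∧
      3 * (n ^ 2 / 4) + T * (n * (2 * NSminus (cycles len))) ≤ T * (n * (3 * (n + 1))) ∧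
      9 * (n - 1) ≤ (4 * T + 1) * NSsp (cycles len)) ∧
    (∀ k t : ℕ, 1 ≤ k → 3 ≤ t → ¬ 3 ∣ t →
      2 * NS (cycles (fun _ : Fin k => t)) + 1 ≤ 3 * (k * t + 1) + 5 * k ∧
      3 * (k * t + 1) + 1 ≤ 2 * NSminus (cycles (fun _ : Fin k => t)) + 5 * k ∧
      NSsp (cycles (fun _ : Fin k => t)) + 1 ≤ 5 * k) :=
  ⟨fun _ len T n hlen h3 hn hn1 => NonThree.lower len T hlen h3 n hn hn1,
    fun k t hk ht h3 => NonThree.upper_params k t hk h3 ht⟩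

end Pool.Agent.Results.MP_4e56b2_co.NonMultiples
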