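import Pool.Agent.NbrSum.Core

/-!
# Closed neighbourhood sums of `k C_t` for odd `k` and `3 ∣ t`
-/

namespace Pool.Agent.Results.MP_4e56b2_co.OddCopies

open Pool.Agent.NbrSum

/-- Let `k` be odd, `t = 3L` and `G = k C_t`, with `n = kt` vertices, and let `g = gap L`, that is
`g = 0, 1, 2, 2` for `t = 3, 6, 9, 15`, `g = 3` for all other even and `g = 4` for all other odd
multiples `t` of `3`. Then `NS[G] = 3(n+1)/2 + g/2`, `NS⁻[G] = 3(n+1)/2 - g/2` and
`NS^{sp}[G] = g`. For `k = 1` and odd `t ≥ 21` this is part (a) of the question. -/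
theorem result (k L : ℕ) (hk : Odd k) (hL : 1 ≤ L) :
    2 * NS (cycles (fun _ : Fin k => 3 * L)) = 3 * (k * (3 * L) + 1) + gap L ∧
    2 * NSminus (cycles (fun _ : Fin k => 3 * L)) + gap L = 3 * (k * (3 * L) + 1) ∧
    NSsp (cycles (fun _ : Fin k => 3 * L)) = gap L :=
  odd_case k L hk hL

end Pool.Agent.Results.MP_4e56b2_co.OddCopies
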